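import Pool.Agent.W278.EM.Stms

set_option autoImplicit false
open MeasureTheory Finset
open scoped ComplexConjugate

/-! # EM-P1: offset sums, part I -/

namespace Pool.Agent.W368.EM.P1

open Pool.Agent.Helper873.OneVar Pool.Agent.Helper873.Product Pool.Agent.Helper873.Monomial
  Pool.Agent.Helper873.Alg Pool.Agent.Helper873.NT Pool.Agent.W278.EM

theorem continuous_tr (n : ℕ) : Continuous (tr n) := by
  unfold tr
  apply continuous_pi
  intro k
  by_cases h : k < n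
  · simp only [h, if_true]
    exact continuous_apply k
  · simp only [h, if_false]
    exact continuous_const

theorem continuous_dl (c : ℕ →₀ ℂ) (l : ℕ) : Continuous (dl c l) := by
  unfold dl
  exact ((continuous_poly c).comp (continuous_tr _)).sub
    ((continuous_poly c).comp (continuous_tr _))

theorem continuous_vs : Continuous vs := by
  apply continuous_pi
  intro k
  show Continuous fun s : ℂ => (Nat.nth Nat.Prime k : ℂ) ^ (-s)
  apply Continuous.const_cpow continuous_neg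
  left
  exact_mod_cast (Nat.prime_nth_prime k).ne_zero

/-- The integrand of the Cauchy representation. -/
noncomputable def FF (c : ℕ →₀ ℂ) (D l i : ℕ) (v w φ : ℝ) : ℂ :=
  Complex.exp (-(φ : ℂ) * Complex.I) *
    dl c l (vs (pt l (Real.cos φ / 4)
      ((i : ℝ) / 2 ^ (l + D) + (v + w + Real.sin φ / 4) / 2 ^ l)))

theorem continuous_FF (c : ℕ →₀ ℂ) (D l i : ℕ) :
    Continuous fun q : ℝ × ℝ × ℝ => FF c D l i q.1 q.2.1 q.2.2 := by
  unfold FF
  apply Continuous.mul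
  · fun_prop
  · refine (continuous_dl c l).comp (continuous_vs.comp ?_)
    unfold pt
    fun_prop

section triple

variable {ι : Type} (F : ι → ℝ → ℝ → ℝ → ℂ)

theorem cont2 (G : ℝ → ℝ → ℝ → ℂ) (hG : Continuous fun q : ℝ × ℝ × ℝ => G q.1 q.2.1 q.2.2)
    (b : ℝ) : Continuous fun p : ℝ × ℝ => ∫ φ in (0 : ℝ)..b, G p.1 p.2 φ := by
  apply intervalIntegral.continuous_parametric_intervalIntegral_of_continuous'
    (f := fun (p : ℝ × ℝ) φ => G p.1 p.2 φ)
  exact hG.comp (by fun_prop : Continuous fun q : (ℝ × ℝ) × ℝ => (q.1.1, q.1.2, q.2))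

theorem cont3 (G : ℝ → ℝ → ℝ → ℂ) (hG : Continuous fun q : ℝ × ℝ × ℝ => G q.1 q.2.1 q.2.2)
    (h b : ℝ) : Continuous fun v : ℝ => ∫ w in (0 : ℝ)..h, ∫ φ in (0 : ℝ)..b, G v w φ := by
  apply intervalIntegral.continuous_parametric_intervalIntegral_of_continuous'
    (f := fun (v : ℝ) w => ∫ φ in (0 : ℝ)..b, G v w φ)
  exact cont2 G hG b

theorem triple_sum (s : Finset ι) (a : ι → ℂ)
    (hF : ∀ k, Continuous fun q : ℝ × ℝ × ℝ => F k q.1 q.2.1 q.2.2) (h b : ℝ) :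
    ∫ v in (0 : ℝ)..h, ∫ w in (0 : ℝ)..h, ∫ φ in (0 : ℝ)..b, ∑ k ∈ s, a k * F k v w φ =
      ∑ k ∈ s, a k * ∫ v in (0 : ℝ)..h, ∫ w in (0 : ℝ)..h, ∫ φ in (0 : ℝ)..b, F k v w φ := by
  have e1 : ∀ v w : ℝ, ∫ φ in (0 : ℝ)..b, ∑ k ∈ s, a k * F k v w φ =
      ∑ k ∈ s, a k * ∫ φ in (0 : ℝ)..b, F k v w φ := by
    intro v w
    rw [intervalIntegral.integral_finsetSum]
    · exact sum_congr rfl fun k _ => intervalIntegral.integral_const_mul _ _
    · intro k _
      have : Continuous fun φ => F k v w φ :=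
        (hF k).comp (by fun_prop : Continuous fun φ : ℝ => (v, w, φ))
      exact (continuous_const.mul this).intervalIntegrable _ _
  have e2 : ∀ v : ℝ, ∫ w in (0 : ℝ)..h, ∫ φ in (0 : ℝ)..b, ∑ k ∈ s, a k * F k v w φ =
      ∑ k ∈ s, a k * ∫ w in (0 : ℝ)..h, ∫ φ in (0 : ℝ)..b, F k v w φ := by
    intro v
    have : (fun w : ℝ => ∫ φ in (0 : ℝ)..b, ∑ k ∈ s, a k * F k v w φ) = fun w =>
        ∑ k ∈ s, a k * ∫ φ in (0 : ℝ)..b, F k v w φ := funext fun w => e1 v w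
    rw [this, intervalIntegral.integral_finsetSum]
    · exact sum_congr rfl fun k _ => intervalIntegral.integral_const_mul _ _
    · intro k _
      have : Continuous fun w => ∫ φ in (0 : ℝ)..b, F k v w φ :=
        (cont2 (F k) (hF k) b).comp (by fun_prop : Continuous fun w : ℝ => (v, w))
      exact (continuous_const.mul this).intervalIntegrable _ _
  have : (fun v : ℝ => ∫ w in (0 : ℝ)..h, ∫ φ in (0 : ℝ)..b, ∑ k ∈ s, a k * F k v w φ) =
      fun v => ∑ k ∈ s, a k * ∫ w in (0 : ℝ)..h, ∫ φ in (0 : ℝ)..b, F k v w φ :=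
    funext fun v => e2 v
  rw [this, intervalIntegral.integral_finsetSum]
  · exact sum_congr rfl fun k _ => intervalIntegral.integral_const_mul _ _
  · intro k _
    exact (continuous_const.mul (cont3 (F k) (hF k) h b)).intervalIntegrable _ _

theorem triple_bound (G : ℝ → ℝ → ℝ → ℂ) (h b B : ℝ) (hh : 0 ≤ h) (hb : 0 ≤ b)
    (hG : ∀ v w φ, 0 ≤ v → v ≤ h → 0 ≤ w → w ≤ h → ‖G v w φ‖ ≤ B) :
    ‖∫ v in (0 : ℝ)..h, ∫ w in (0 : ℝ)..h, ∫ φ in (0 : ℝ)..b, G v w φ‖ ≤ B * b * h * h := by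
  have e1 : ∀ v w : ℝ, 0 ≤ v → v ≤ h → 0 ≤ w → w ≤ h →
      ‖∫ φ in (0 : ℝ)..b, G v w φ‖ ≤ B * b := by
    intro v w h1 h2 h3 h4
    have := intervalIntegral.norm_integral_le_of_norm_le_const (a := 0) (b := b) (C := B)
      (f := fun φ => G v w φ) (fun φ _ => hG v w φ h1 h2 h3 h4)
    rwa [sub_zero, abs_of_nonneg hb] at this
  have e2 : ∀ v : ℝ, 0 ≤ v → v ≤ h →
      ‖∫ w in (0 : ℝ)..h, ∫ φ in (0 : ℝ)..b, G v w φ‖ ≤ B * b * h := by
    intro v h1 h2
    have := intervalIntegral.norm_integral_le_of_norm_le_const (a := 0) (b := h) (C := B * b)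
      (f := fun w => ∫ φ in (0 : ℝ)..b, G v w φ) (fun w hw => by
        rw [Set.uIoc_of_le hh] at hw
        exact e1 v w h1 h2 hw.1.le hw.2)
    rwa [sub_zero, abs_of_nonneg hh] at this
  have := intervalIntegral.norm_integral_le_of_norm_le_const (a := 0) (b := h) (C := B * b * h)
    (f := fun v => ∫ w in (0 : ℝ)..h, ∫ φ in (0 : ℝ)..b, G v w φ) (fun v hv => by
      rw [Set.uIoc_of_le hh] at hv
      exact e2 v hv.1.le hv.2)
  rwa [sub_zero, abs_of_nonneg hh] at this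

end triple

theorem sum_split (l D : ℕ) (f : ℕ → ℂ) :
    ∑ i ∈ range (2 ^ (l + D)), f i = ∑ e ∈ range (2 ^ D), ∑ j ∈ range (2 ^ l), f (j * 2 ^ D + e) := by
  rw [← sum_product']
  have hD : 0 < 2 ^ D := by positivity
  refine sum_nbij' (fun i => (i % 2 ^ D, i / 2 ^ D)) (fun p => p.2 * 2 ^ D + p.1) ?_ ?_ ?_ ?_ ?_
  · intro i hi
    simp only [mem_range, mem_product] at hi ⊢
    refine ⟨Nat.mod_lt _ hD, ?_⟩
    rw [Nat.div_lt_iff_lt_mul hD, ← pow_add]
    exact hi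
  · intro p hp
    simp only [mem_range, mem_product] at hp ⊢
    calc p.2 * 2 ^ D + p.1 < p.2 * 2 ^ D + 2 ^ D := by omega
      _ = (p.2 + 1) * 2 ^ D := by ring
      _ ≤ 2 ^ l * 2 ^ D := Nat.mul_le_mul_right _ hp.2
      _ = 2 ^ (l + D) := by rw [pow_add]
  · intro i _
    exact Nat.div_add_mod' i (2 ^ D)
  · intro p hp
    simp only [mem_range, mem_product] at hp
    ext
    · show (p.2 * 2 ^ D + p.1) % 2 ^ D = p.1
      rw [mul_comm, Nat.mul_add_mod, Nat.mod_eq_of_lt hp.1]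
    · show (p.2 * 2 ^ D + p.1) / 2 ^ D = p.2
      rw [mul_comm, Nat.mul_add_div hD, Nat.div_eq_of_lt hp.1, add_zero]
  · intro i _
    show f i = f (i / 2 ^ D * 2 ^ D + i % 2 ^ D)
    rw [Nat.div_add_mod']

theorem RR_nonneg (r : ℝ) (L : ℕ) (β : ℕ → ℕ → ℂ) (Sl : ℕ → ℕ → ℕ × ℕ) (La : Finset (ℕ × ℕ)) :
    0 ≤ RR r L β Sl La := by
  unfold RR
  apply sum_nonneg
  intro S _
  apply mul_nonneg (by positivity)
  apply Real.rpow_nonneg
  apply sum_nonneg
  intro l _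
  apply sum_nonneg
  intro j _
  split_ifs
  · positivity
  · exact le_refl _

/-- the label condition -/
theorem label {r : ℝ} {N : ℕ} {β : ℕ → ℕ → ℂ} {Sf : ℕ → ℕ → ℕ × ℕ} {lam : ℕ × ℕ → ℝ} {Λ : ℝ}
    (hS : Stop r N β Sf lam Λ) (D e l j : ℕ) (he : e < 2 ^ D) (hl : l + D < N) (hj : j < 2 ^ l)
    (v w φ : ℝ) (hv : 0 ≤ v) (hv' : v ≤ 1 / 2 ^ (D + 1)) (hw : 0 ≤ w) (hw' : w ≤ 1 / 2 ^ (D + 1))
    (S : ℕ × ℕ) (hSe : S = if (Sf (l + D) (j * 2 ^ D + e)).1 ≤ l then Sf (l + D) (j * 2 ^ D + e)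
      else (l, j)) :
    S ∈ Lab N ∧ S.1 ≤ l ∧
      |((e : ℝ) / 2 ^ D + v + w + Real.sin φ / 4) / 2 ^ l + (j : ℝ) / 2 ^ l -
        (S.2 : ℝ) / 2 ^ S.1| ≤ 2 / 2 ^ S.1 := by
  have hi : j * 2 ^ D + e < 2 ^ (l + D) := by
    calc j * 2 ^ D + e < j * 2 ^ D + 2 ^ D := by omega
      _ = (j + 1) * 2 ^ D := by ring
      _ ≤ 2 ^ l * 2 ^ D := Nat.mul_le_mul_right _ hj
      _ = 2 ^ (l + D) := by rw [pow_add]
  have hs1 : Real.sin φ ≤ 1 := Real.sin_le_one φ
  have hs2 : -1 ≤ Real.sin φ := Real.neg_one_le_sin φ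
  have hp : (0 : ℝ) < 2 ^ l := by positivity
  have hpD : (0 : ℝ) < 2 ^ D := by positivity
  have hvw : v + w ≤ 1 / 2 ^ D := by
    have : (1 : ℝ) / 2 ^ (D + 1) + 1 / 2 ^ (D + 1) = 1 / 2 ^ D := by
      rw [pow_succ]
      field_simp
      norm_num
    linarith
  obtain ⟨ha1, ha2⟩ := hS.anc (l + D) (j * 2 ^ D + e) hl hi
  split_ifs at hSe with hc
  · -- an ancestor which is coarse
    rw [← hSe] at ha1 ha2 hc
    obtain ⟨s, q⟩ := S
    simp only at ha1 ha2 hc ⊢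
    obtain ⟨u, rfl⟩ := Nat.exists_eq_add_of_le hc
    have hms : s + u + D - s = u + D := by omega
    rw [hms] at ha2
    have hq1 : q * 2 ^ (u + D) ≤ j * 2 ^ D + e := by
      rw [ha2]
      exact Nat.div_mul_le_self _ _
    have hq2 : j * 2 ^ D + e < (q + 1) * 2 ^ (u + D) := by
      have h2 : 0 < 2 ^ (u + D) := by positivity
      have h3 := Nat.lt_mul_div_succ (j * 2 ^ D + e) h2
      rw [← ha2, mul_comm (2 ^ (u + D))] at h3
      exact h3
    have hqs : q < 2 ^ s := by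
      have : q * 2 ^ (u + D) < 2 ^ s * 2 ^ (u + D) := by
        calc q * 2 ^ (u + D) ≤ j * 2 ^ D + e := hq1
          _ < 2 ^ (s + u + D) := hi
          _ = 2 ^ s * 2 ^ (u + D) := by rw [← pow_add, add_assoc]
      exact lt_of_mul_lt_mul_right this (by positivity)
    refine ⟨?_, hc, ?_⟩
    · unfold Lab
      simp only [mem_filter, mem_product, mem_range]
      refine ⟨⟨by omega, lt_of_lt_of_le hqs (Nat.pow_le_pow_right (by norm_num) (by omega))⟩, hqs⟩
    · have hq1' : (q : ℝ) * 2 ^ (u + D) ≤ j * 2 ^ D + e := by exact_mod_cast hq1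
      have hq2' : (j : ℝ) * 2 ^ D + e + 1 ≤ (q + 1) * 2 ^ (u + D) := by exact_mod_cast hq2
      have hps : (0 : ℝ) < 2 ^ s := by positivity
      have hpu : (1 : ℝ) ≤ 2 ^ u := one_le_pow₀ (by norm_num)
      -- multiply by `2 ^ l`
      have e1 : ((e : ℝ) / 2 ^ D + v + w + Real.sin φ / 4) / 2 ^ (s + u) + (j : ℝ) / 2 ^ (s + u) -
        (q : ℝ) / 2 ^ s = ((e : ℝ) / 2 ^ D + v + w + Real.sin φ / 4 + j - q * 2 ^ u) /
          2 ^ (s + u) := by
        rw [pow_add]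
        field_simp
      have e2 : (2 : ℝ) / 2 ^ s = (2 * 2 ^ u) / 2 ^ (s + u) := by
        rw [pow_add]
        field_simp
      rw [e1, e2, abs_div, abs_of_pos hp]
      apply div_le_div_of_nonneg_right _ hp.le
      have f1 : (q : ℝ) * 2 ^ u ≤ j + e / 2 ^ D := by
        have : (q : ℝ) * 2 ^ u = q * 2 ^ (u + D) / 2 ^ D := by
          rw [pow_add]
          field_simp
        rw [this, div_le_iff₀ hpD, add_mul, div_mul_cancel₀ _ hpD.ne']
        exact hq1'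
      have f2 : (j : ℝ) + e / 2 ^ D + 1 / 2 ^ D ≤ (q + 1) * 2 ^ u := by
        have : ((q : ℝ) + 1) * 2 ^ u = (q + 1) * 2 ^ (u + D) / 2 ^ D := by
          rw [pow_add]
          field_simp
        rw [this, le_div_iff₀ hpD, add_mul, add_mul, div_mul_cancel₀ _ hpD.ne',
          div_mul_cancel₀ _ hpD.ne']
        exact hq2'
      rw [abs_le]
      constructor
      · linarith
      · linarith
  · rw [hSe]
    simp only
    refine ⟨?_, le_refl _, ?_⟩
    · unfold Lab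
      simp only [mem_filter, mem_product, mem_range]
      exact ⟨⟨by omega, lt_of_lt_of_le hj (Nat.pow_le_pow_right (by norm_num) (by omega))⟩, hj⟩
    · rw [add_sub_cancel_right, abs_div, abs_of_pos hp]
      apply div_le_div_of_nonneg_right _ hp.le
      have he' : (e : ℝ) / 2 ^ D + 1 / 2 ^ D ≤ 1 := by
        rw [← add_div, div_le_one hpD]
        exact_mod_cast he
      have he0 : (0 : ℝ) ≤ e / 2 ^ D := by positivity
      rw [abs_le]
      constructor
      · linarith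
      · linarith

theorem spi_of (h1 : SCore) (h2 : SSumI) (h3 : STI) : SPI := by
  intro r hr1 hr2
  obtain ⟨C1, hC1, hcore⟩ := h1 r hr1 hr2
  obtain ⟨C2, hC2, hsum⟩ := h2 r hr1 hr2
  refine ⟨2 * C1 * C2 ^ (1 / r), by positivity, ?_⟩
  intro c L hL N D β Sf lam Λ hS
  have hr0 : 0 < r := by linarith
  have hΛ : 0 ≤ Λ := (sum_nonneg fun S _ => hS.nonneg S).trans hS.total
  have hnrm : 0 ≤ nrmP (r / (r - 1)) c := by
    unfold nrmP
    apply Real.rpow_nonneg
    apply integral_nonneg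
    intro z
    positivity
  set h : ℝ := 1 / 2 ^ (D + 1) with hh
  have hh0 : 0 ≤ h := by positivity
  have hpi : (0 : ℝ) ≤ 2 * Real.pi := by positivity
  -- relabelled coefficients
  set β' : ℕ → ℕ → ℕ → ℂ := fun e l j => if l + D < N ∧ j < 2 ^ l then β (l + D) (j * 2 ^ D + e)
    else 0 with hβ'
  set Sl : ℕ → ℕ → ℕ → ℕ × ℕ := fun e l j => if (Sf (l + D) (j * 2 ^ D + e)).1 ≤ l then
    Sf (l + D) (j * 2 ^ D + e) else (l, j) with hSl
  -- the triple integral of one term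
  set T : ℕ → ℕ → ℂ := fun l i => ∫ v in (0 : ℝ)..h, ∫ w in (0 : ℝ)..h,
    ∫ φ in (0 : ℝ)..(2 * Real.pi), FF c D l i v w φ with hT
  set Q : ℕ → ℝ → ℝ → ℝ → ℂ := fun e v w φ => ∑ p ∈ (Ico 3 L).sigma (fun l => range (2 ^ l + 1)),
    (((1 / 2 ^ p.1 : ℝ) : ℂ) * β' e p.1 p.2) * FF c D p.1 (p.2 * 2 ^ D + e) v w φ with hQ
  have hdec : (∑ l ∈ Ico 3 L, if l + D < N then ∑ i ∈ range (2 ^ (l + D)),
      β (l + D) i * HI c l (l + D) i else 0) =
      ∑ e ∈ range (2 ^ D), (-Complex.I * ((2 / Real.pi : ℝ) : ℂ)) *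
        ∫ v in (0 : ℝ)..h, ∫ w in (0 : ℝ)..h, ∫ φ in (0 : ℝ)..(2 * Real.pi), Q e v w φ := by
    have e1 : ∀ e, (∫ v in (0 : ℝ)..h, ∫ w in (0 : ℝ)..h, ∫ φ in (0 : ℝ)..(2 * Real.pi),
        Q e v w φ) = ∑ l ∈ Ico 3 L, ∑ j ∈ range (2 ^ l + 1),
          (((1 / 2 ^ l : ℝ) : ℂ) * β' e l j) * T l (j * 2 ^ D + e) := by
      intro e
      have := triple_sum (fun (p : (_ : ℕ) × ℕ) => FF c D p.1 (p.2 * 2 ^ D + e))
        ((Ico 3 L).sigma (fun l => range (2 ^ l + 1)))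
        (fun p => ((1 / 2 ^ p.1 : ℝ) : ℂ) * β' e p.1 p.2)
        (fun p => continuous_FF c D _ _) h (2 * Real.pi)
      refine this.trans ?_
      rw [sum_sigma]
    have e0 : ∑ e ∈ range (2 ^ D), (-Complex.I * ((2 / Real.pi : ℝ) : ℂ)) *
        (∫ v in (0 : ℝ)..h, ∫ w in (0 : ℝ)..h, ∫ φ in (0 : ℝ)..(2 * Real.pi), Q e v w φ) =
        ∑ e ∈ range (2 ^ D), (-Complex.I * ((2 / Real.pi : ℝ) : ℂ)) *
        ∑ l ∈ Ico 3 L, ∑ j ∈ range (2 ^ l + 1),
          (((1 / 2 ^ l : ℝ) : ℂ) * β' e l j) * T l (j * 2 ^ D + e) :=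
      sum_congr rfl fun e _ => by rw [e1 e]
    rw [e0, ← mul_sum, sum_comm, mul_sum]
    apply sum_congr rfl
    intro l _
    split_ifs with hl
    · have e2 : ∀ i, β (l + D) i * HI c l (l + D) i =
          (-Complex.I * ((2 / Real.pi : ℝ) : ℂ)) * ((((1 / 2 ^ l : ℝ) : ℂ) * β (l + D) i) *
            T l i) := by
        intro i
        rw [h3 c l D i]
        have : (((2 / Real.pi / 2 ^ l : ℝ)) : ℂ) = ((2 / Real.pi : ℝ) : ℂ) *
            ((1 / 2 ^ l : ℝ) : ℂ) := by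
          rw [← Complex.ofReal_mul]
          congr 1
          ring
        rw [this]
        simp only [hT, FF, hh]
        ring
      rw [sum_congr rfl fun i _ => e2 i, ← mul_sum]
      congr 1
      rw [sum_split]
      apply sum_congr rfl
      intro e _
      rw [sum_range_succ]
      have e3 : β' e l (2 ^ l) = 0 := by
        simp only [hβ', lt_irrefl, and_false, if_false]
      rw [e3, mul_zero, zero_mul, add_zero]
      apply sum_congr rfl
      intro j hj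
      rw [mem_range] at hj
      have e4 : β' e l j = β (l + D) (j * 2 ^ D + e) := by
        simp only [hβ']
        rw [if_pos ⟨hl, hj⟩]
      rw [e4]
    · symm
      rw [sum_eq_zero, mul_zero]
      intro e _
      apply sum_eq_zero
      intro j _
      have : β' e l j = 0 := by
        simp only [hβ']
        rw [if_neg (fun hc => hl hc.1)]
      rw [this, mul_zero, zero_mul]
  rw [hdec]
  -- pointwise bound of `Q`
  set B : ℝ := C1 * 2 * nrmP (r / (r - 1)) c * (C2 * (D + 1) * 2 ^ D * Λ) ^ (1 / r) with hB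
  have hB0 : 0 ≤ B := by positivity
  have hQb : ∀ e, e < 2 ^ D → ∀ v w φ, 0 ≤ v → v ≤ h → 0 ≤ w → w ≤ h → ‖Q e v w φ‖ ≤ B := by
    intro e he v w φ hv hv' hw hw'
    have hx : -(1 / 4) ≤ Real.cos φ / 4 := by
      have := Real.neg_one_le_cos φ
      linarith
    have hc := hcore c L hL (Real.cos φ / 4) hx
      (fun l => ((e : ℝ) / 2 ^ D + v + w + Real.sin φ / 4) / 2 ^ l) (β' e) (Sl e) (Lab N) (by
        intro l j hne
        simp only [hβ'] at hne
        have hlj : l + D < N ∧ j < 2 ^ l := by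
          by_contra hcon
          rw [if_neg hcon] at hne
          exact hne rfl
        exact label hS D e l j he hlj.1 hlj.2 v w φ hv hv' hw hw' _ rfl)
    have hs := hsum N L D e β Sf lam Λ hS he
    have hQe : Q e v w φ = Complex.exp (-(φ : ℂ) * Complex.I) *
        ∑ l ∈ Ico 3 L, ∑ j ∈ range (2 ^ l + 1), ((1 / 2 ^ l : ℝ) : ℂ) * β' e l j *
          dl c l (vs (pt l (Real.cos φ / 4)
            (((e : ℝ) / 2 ^ D + v + w + Real.sin φ / 4) / 2 ^ l + (j : ℝ) / 2 ^ l))) := by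
      simp only [hQ]
      rw [sum_sigma, mul_sum]
      apply sum_congr rfl
      intro l _
      rw [mul_sum]
      apply sum_congr rfl
      intro j _
      have : (((j * 2 ^ D + e : ℕ) : ℝ)) / 2 ^ (l + D) + (v + w + Real.sin φ / 4) / 2 ^ l =
          ((e : ℝ) / 2 ^ D + v + w + Real.sin φ / 4) / 2 ^ l + (j : ℝ) / 2 ^ l := by
        push_cast
        rw [pow_add]
        field_simp
        ring
      simp only [FF]
      rw [this]
      ring
    have hexp : ‖Complex.exp (-(φ : ℂ) * Complex.I)‖ = 1 := by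
      rw [← Complex.ofReal_neg, Complex.norm_exp_ofReal_mul_I]
    rw [hQe, norm_mul, hexp, one_mul]
    refine hc.trans ?_
    have g1 : Real.exp (-(Real.cos φ / 4) / 4) ≤ 2 := by
      have a1 : -(Real.cos φ / 4) / 4 ≤ 1 / 2 := by
        have := Real.neg_one_le_cos φ
        linarith
      have a2 : Real.exp (1 / 2) ≤ 2 := by
        have a3 : Real.exp (1 / 2) ^ 2 = Real.exp 1 := by
          rw [← Real.exp_nat_mul]
          norm_num
        have a4 := Real.exp_one_lt_d9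
        have a5 := Real.exp_pos (1 / 2)
        nlinarith
      exact (Real.exp_le_exp.2 a1).trans a2
    have g2 : (RR r L (β' e) (Sl e) (Lab N)) ^ (1 / r) ≤ (C2 * (D + 1) * 2 ^ D * Λ) ^ (1 / r) :=
      Real.rpow_le_rpow (RR_nonneg _ _ _ _ _) hs (by positivity)
    have g3 : 0 ≤ (RR r L (β' e) (Sl e) (Lab N)) ^ (1 / r) :=
      Real.rpow_nonneg (RR_nonneg _ _ _ _ _) _
    calc C1 * Real.exp (-(Real.cos φ / 4) / 4) * nrmP (r / (r - 1)) c *
          (RR r L (β' e) (Sl e) (Lab N)) ^ (1 / r)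
        ≤ C1 * 2 * nrmP (r / (r - 1)) c * (RR r L (β' e) (Sl e) (Lab N)) ^ (1 / r) := by
          apply mul_le_mul_of_nonneg_right _ g3
          apply mul_le_mul_of_nonneg_right _ hnrm
          exact mul_le_mul_of_nonneg_left g1 hC1.le
      _ ≤ B := mul_le_mul_of_nonneg_left g2 (by positivity)
  have hterm : ∀ e ∈ range (2 ^ D), ‖(-Complex.I * ((2 / Real.pi : ℝ) : ℂ)) *
        ∫ v in (0 : ℝ)..h, ∫ w in (0 : ℝ)..h, ∫ φ in (0 : ℝ)..(2 * Real.pi), Q e v w φ‖ ≤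
      2 / Real.pi * (B * (2 * Real.pi) * h * h) := by
    intro e he
    rw [mem_range] at he
    rw [norm_mul, norm_mul, norm_neg, Complex.norm_I, one_mul, Complex.norm_real,
      Real.norm_of_nonneg (by positivity : 0 ≤ 2 / Real.pi)]
    apply mul_le_mul_of_nonneg_left _ (by positivity)
    exact triple_bound (Q e) h (2 * Real.pi) B hh0 hpi (hQb e he)
  refine (norm_sum_le _ _).trans ((sum_le_sum hterm).trans ?_)
  rw [sum_const, card_range, nsmul_eq_mul]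
  have k1 : ((2 ^ D : ℕ) : ℝ) * (2 / Real.pi * (B * (2 * Real.pi) * h * h)) = B / 2 ^ D := by
    rw [hh]
    push_cast
    rw [pow_succ]
    field_simp
  rw [k1, hB]
  have k2 : (C2 * (D + 1) * 2 ^ D * Λ) ^ (1 / r) =
      C2 ^ (1 / r) * ((D : ℝ) + 1) ^ (1 / r) * ((2 : ℝ) ^ D) ^ (1 / r) * Λ ^ (1 / r) := by
    rw [Real.mul_rpow (by positivity) hΛ, Real.mul_rpow (by positivity) (by positivity),
      Real.mul_rpow hC2.le (by positivity)]
  have k3 : ((D : ℝ) + 1) ^ (1 / r) ≤ (D : ℝ) + 1 := by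
    have hD1 : (1 : ℝ) ≤ (D : ℝ) + 1 := by
      have : (0 : ℝ) ≤ (D : ℝ) := by positivity
      linarith
    have hr' : 1 / r ≤ 1 := by
      rw [div_le_one hr0]
      exact hr1.le
    calc ((D : ℝ) + 1) ^ (1 / r) ≤ ((D : ℝ) + 1) ^ (1 : ℝ) := Real.rpow_le_rpow_of_exponent_le hD1 hr'
      _ = (D : ℝ) + 1 := Real.rpow_one _
  have k4 : ((2 : ℝ) ^ D) ^ (1 / r) / 2 ^ D = (2 : ℝ) ^ (-(D : ℝ) * (1 - 1 / r)) := by
    rw [← Real.rpow_natCast 2 D, ← Real.rpow_mul (by norm_num : (0 : ℝ) ≤ 2), ← Real.rpow_sub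
      (by norm_num : (0 : ℝ) < 2)]
    congr 1
    ring
  rw [k2]
  calc C1 * 2 * nrmP (r / (r - 1)) c * (C2 ^ (1 / r) * ((D : ℝ) + 1) ^ (1 / r) *
        ((2 : ℝ) ^ D) ^ (1 / r) * Λ ^ (1 / r)) / 2 ^ D
      = (2 * C1 * C2 ^ (1 / r)) * ((D : ℝ) + 1) ^ (1 / r) * (((2 : ℝ) ^ D) ^ (1 / r) / 2 ^ D) *
        nrmP (r / (r - 1)) c * Λ ^ (1 / r) := by ring
    _ = (2 * C1 * C2 ^ (1 / r)) * ((D : ℝ) + 1) ^ (1 / r) * (2 : ℝ) ^ (-(D : ℝ) * (1 - 1 / r)) *
        nrmP (r / (r - 1)) c * Λ ^ (1 / r) := by rw [k4]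
    _ ≤ 2 * C1 * C2 ^ (1 / r) * ((D : ℝ) + 1) * (2 : ℝ) ^ (-(D : ℝ) * (1 - 1 / r)) *
        nrmP (r / (r - 1)) c * Λ ^ (1 / r) := by
      apply mul_le_mul_of_nonneg_right _ (by positivity)
      apply mul_le_mul_of_nonneg_right _ hnrm
      apply mul_le_mul_of_nonneg_right _ (by positivity)
      exact mul_le_mul_of_nonneg_left k3 (by positivity)

end Pool.Agent.W368.EM.P1
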